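import Mathlib
import Pool.Agent.R980.DomMain

/-!
# `γ_MB(G,1) > s_MB(G,1)` w.h.p. in `G(n, 15/16)` along `n = 2 t² 16^t`
-/

set_option autoImplicit false

namespace Pool.Agent.Results.MP_dfc2f8_pr.TimeExceedsSize

open Finset Filter Topology
open scoped Classical
open Pool.Agent.R980

/-- `γ_MB(G,b)`: the least number of rounds within which Dominator, moving first in the `(1:b)`
game, can force that she has claimed a dominating set (`⊤` if there is none). -/
noncomputable def gammaMB {n : ℕ} (G : SimpleGraph (Fin n)) (b : ℕ) : ℕ∞ :=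
  ⨅ k ∈ {k : ℕ | Force b (Dominating G) k ∅ ∅}, (k : ℕ∞)

/-- `s_MB(G,b)`: the least `s` such that Dominator, moving first in the `(1:b)` game, can force
that she claims all vertices of some dominating set of size at most `s` (`⊤` if there is none). -/
noncomputable def sMB {n : ℕ} (G : SimpleGraph (Fin n)) (b : ℕ) : ℕ∞ :=
  ⨅ s ∈ {s : ℕ | ∃ k : ℕ,
    Force b (fun D => ∃ D' ⊆ D, D'.card ≤ s ∧ Dominating G D') k ∅ ∅}, (s : ℕ∞)

theorem of_good (t : ℕ) (G : SimpleGraph (Fin (Nt t))) (h : Good t G) :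
    sMB G 1 ≤ (t : ℕ∞) ∧ ((t + 1 : ℕ) : ℕ∞) ≤ gammaMB G 1 := by
  obtain ⟨-, h2, h3, -⟩ := h
  refine ⟨?_, ?_⟩
  · unfold sMB
    exact iInf₂_le t h3
  · unfold gammaMB
    refine le_iInf₂ fun k hk => ?_
    by_contra hlt
    have hlt' : k < t + 1 := by
      rw [not_le] at hlt
      exact_mod_cast hlt
    exact h2 k (by omega) (Force.toD hk)

/-- For `p = 15/16`, `b = 1` and along the sequence `n = Nt t = 2 t² 16^t` the random graph
`G(n,p)` satisfies `s_MB(G,1) ≤ t < t + 1 ≤ γ_MB(G,1)` with probability tending to `1`.  Hence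
`Pr[γ_MB(G(n,p),1) = s_MB(G(n,p),1)]` tends to `0` along this sequence, and it does not tend
to `1` as `n → ∞`. -/
theorem result :
    Tendsto (fun t : ℕ => gnp (Nt t) (15 / 16) (fun G =>
      sMB G 1 ≤ (t : ℕ∞) ∧ ((t + 1 : ℕ) : ℕ∞) ≤ gammaMB G 1)) atTop (𝓝 1) ∧
    Tendsto (fun t : ℕ => gnp (Nt t) (15 / 16) (fun G => gammaMB G 1 = sMB G 1)) atTop (𝓝 0) ∧
    ¬ Tendsto (fun n : ℕ => gnp n (15 / 16) (fun G => gammaMB G 1 = sMB G 1)) atTop (𝓝 1) := by
  have h0 : Tendsto (fun t : ℕ => gnp (Nt t) (15 / 16) (fun G => gammaMB G 1 = sMB G 1)) atTop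
      (𝓝 0) := by
    refine prob_zero (fun n G => gammaMB G 1 = sMB G 1) fun t G hG heq => ?_
    obtain ⟨h1, h2⟩ := of_good t G hG
    rw [heq] at h2
    have h3 : ((t + 1 : ℕ) : ℕ∞) ≤ (t : ℕ∞) := h2.trans h1
    have h4 : t + 1 ≤ t := by exact_mod_cast h3
    omega
  refine ⟨?_, h0, not_tendsto_one (fun n G => gammaMB G 1 = sMB G 1) h0⟩
  refine tendsto_of_tendsto_of_tendsto_of_le_of_le good_tendsto tendsto_const_nhds
    (fun t => gnp_mono (by norm_num) (by norm_num) fun G hG => of_good t G hG)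
    (fun t => gnp_le_one (by norm_num) (by norm_num) _)

end Pool.Agent.Results.MP_dfc2f8_pr.TimeExceedsSize
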